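import Pool.Agent.H11.NZ.Targets
import Pool.Agent.H86.NY.CD

/-!
# Module CD0 of the board nz_modules (MP_9b2842_al)
-/

set_option autoImplicit false

open Equiv (Perm)

namespace Pool.Agent.H92.NZ.CD0

open Pool.Agent.H11.NZ
open Pool.Agent.H11.NY
open Pool.Agent.H86.NY.CD

theorem pf_cd0 : T_C4 → T_C5 → T_C6 → T_C7 → T_CD0 := by
  intro hC4 hC5 hC6 hC7 e
  classical
  refine ⟨e * (e + 5) + 2 * e + 2, ?_⟩
  intro L Ω _ _ _ _ ψ K V _ _ _ _ ρ c q a hψ hV hscal hc hqp hq5 hqe haq hBa hq hnofix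
  -- root of unity
  obtain ⟨ω, hω⟩ : ∃ ω : K, IsPrimitiveRoot ω q := by
    haveI : NeZero (q : K) := ⟨hq⟩
    exact HasEnoughRootsOfUnity.exists_primitiveRoot K q
  have hωq : ω ^ q = 1 := hω.pow_eq_one
  have hω1 : ω ≠ 1 := hω.ne_one hqp.one_lt
  -- the cycles
  obtain ⟨⟨l, hl1, hl2, hl3⟩, -⟩ := (Equiv.Perm.truncCycleFactors (ψ a : Perm Ω)).exists_rep
  have hψaq : (ψ a : Perm Ω) ^ q = 1 := by
    have h1 : ψ a ^ q = 1 := by rw [← map_pow, haq, map_one]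
    have h2 : ((ψ a ^ q : alternatingGroup Ω) : Perm Ω) = 1 := by rw [h1]; rfl
    simpa using h2
  have hcardl : ∀ s ∈ l, s.support.card = q := by
    intro s hs
    have hsc := hl2 s hs
    have h1 : s ^ q = 1 := by
      ext x
      by_cases hx : s x = x
      · rw [Equiv.Perm.pow_apply_eq_self_of_apply_eq_self hx q]; rfl
      · rw [(fac_pow hl3 hs hx q).1, hl1, hψaq]
    have h2 : orderOf s ∣ q := orderOf_dvd_of_pow_eq_one h1
    rcases (Nat.dvd_prime hqp).1 h2 with h3 | h3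
    · exfalso
      rw [orderOf_eq_one_iff] at h3
      exact hsc.ne_one h3
    · rw [← hsc.orderOf, h3]
  have hsum : (ψ a : Perm Ω).support.card = l.length * q := by
    rw [← hl1, Equiv.Perm.card_support_prod_list_of_pairwise_disjoint hl3]
    have h1 : l.map (Finset.card ∘ Equiv.Perm.support) = l.map (fun _ => q) :=
      List.map_congr_left (fun s hs => hcardl s hs)
    rw [h1]
    simp
  have hmq : q + 5 ≤ l.length := by
    by_contra hlt
    have h1 : l.length ≤ q + 4 := by omega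
    rw [hsum] at hBa
    have h2 : l.length * q ≤ (q + 4) * q := Nat.mul_le_mul_right _ h1
    have h3 : (q + 4) * q ≤ (e + 4) * e := Nat.mul_le_mul (by omega) hqe
    nlinarith
  have hcardΩ : 2 * q + 2 ≤ Fintype.card Ω := by
    have h2 : (ψ a : Perm Ω).support.card ≤ Fintype.card Ω := Finset.card_le_univ _
    have h3 : 2 * q ≤ 2 * e := by omega
    nlinarith
  have hcyc : Cyc q l.get := by
    refine ⟨fun i => ⟨hl2 _ (List.get_mem _ _), hcardl _ (List.get_mem _ _)⟩, ?_⟩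
    intro i j hij
    rcases lt_or_gt_of_ne hij with h1 | h1
    · exact (List.pairwise_iff_get.1 hl3) i j h1
    · exact ((List.pairwise_iff_get.1 hl3) j i h1).symm
  have hprod : (ψ a : Perm Ω) = (List.ofFn l.get).prod := by
    rw [List.ofFn_get, hl1]
  obtain ⟨ζ, hζ⟩ := hC7 q l.length L Ω ψ K V ρ c ω l.get a hqp hV hscal hc hωq hω1 hq hcyc haq hprod
  intro s₁ s₂ hs₁ hs₁' hs₂ hs₂' hs
  by_contra hcon
  have hi0 : 0 < l.length := by omega
  have hi1 : 1 < l.length := by omega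
  have hi2 : 2 < l.length := by omega
  have hi3 : 3 < l.length := by omega
  have hex : ∃ v : V, c (l.get ⟨0, hi0⟩) (c (l.get ⟨1, hi1⟩) v) - c (l.get ⟨0, hi0⟩) v -
      c (l.get ⟨1, hi1⟩) v + v ≠ 0 := by
    by_contra h2
    push Not at h2
    exact hcon (transfer hψ hc hcardΩ (hcyc.1 _).1 (hcyc.1 _).2 (hcyc.1 _).1 (hcyc.1 _).2
      (hcyc.2 _ _ (by simp)) hs₁ hs₁' hs₂ hs₂' hs h2)
  obtain ⟨v, hv⟩ := hex
  have hT : ∀ i : Fin l.length, (c (l.get i)) ^ q = 1 := fun i =>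
    (hc _ (hcyc.1 i).1 (hcyc.1 i).2).2.1
  have hTT : ∀ i j : Fin l.length, c (l.get i) * c (l.get j) = c (l.get j) * c (l.get i) := by
    intro i j
    by_cases hij : i = j
    · rw [hij]
    · obtain ⟨⟨d, hd, z, hz, hcz⟩, -⟩ := hc _ (hcyc.1 i).1 (hcyc.1 i).2
      have h1 := (hc _ (hcyc.1 j).1 (hcyc.1 j).2).2.2.2 d
      have h2 : l.get i * l.get j * (l.get i)⁻¹ = l.get j := by
        rw [(hcyc.2 i j hij).commute.eq, mul_inv_cancel_right]
      rw [hd, h2] at h1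
      rw [hcz, smul_mul_assoc, h1, mul_smul_comm]
  obtain ⟨χ, hχ, hχ0, hχ1⟩ := hC5 q l.length K V ω hqp hωq hω1 hq (fun i => c (l.get i)) hT hTT
    ⟨0, hi0⟩ ⟨1, hi1⟩ v hv
  obtain ⟨μ, hμ0, hμs, -⟩ := hC6 q l.length hqp hq5 (by omega) χ ⟨0, hi0⟩ ⟨1, hi1⟩
    (by simp) hχ0 hχ1 (-ζ)
  obtain ⟨χ', hχ', hχs⟩ : ∃ χ' : Fin l.length → ZMod q,
      Occ ω (fun i => c (l.get i)) χ' ∧ ζ + ∑ i, χ' i = 0 := by
    have h1 := (hC4 q l.length L Ω ψ K V ρ c ω l.get χ hqp hq5 hψ hc hωq hω1 hcyc hχ).2 μ hμ0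
      ⟨2, hi2⟩ ⟨3, hi3⟩ (by simp)
    rcases h1 with h1 | h1
    · exact ⟨_, h1, by rw [hμs]; ring⟩
    · refine ⟨_, h1, ?_⟩
      rw [Equiv.sum_comp (Equiv.swap (⟨2, hi2⟩ : Fin l.length) ⟨3, hi3⟩) (fun i => μ i * χ i), hμs]
      ring
  obtain ⟨w, hw, hwχ⟩ := hχ'
  have hfin := hζ χ' w hwχ
  rw [hχs] at hfin
  refine hw (hnofix w ?_)
  rw [hfin]
  simp

end Pool.Agent.H92.NZ.CD0
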