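import Pool.Agent.H11.NZ.Targets
import Pool.Agent.H60.NZ.DVA

/-!
# Module PDX of the board nz_modules (MP_9b2842_al)
-/

set_option autoImplicit false

open Equiv (Perm)

namespace Pool.Agent.H92.NZ.PDX

open Pool.Agent.H11.NZ
open Pool.Agent.H11.NY

/-- product of commuting operators -/
theorem prod_op {K V : Type} [Field K] [AddCommGroup V] [Module K V] {n : ℕ}
    (F : Fin n → Module.End K V) (u : Fin n → V) (v : V) (c : Fin n → K)
    (hF : ∀ l k, l ≠ k → F l * F k = F k * F l) (hu : ∀ l, F l (u l) = 0)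
    (hv : ∀ l, F l v = c l • v) (s : Finset (Fin n)) :
    ∃ G : Module.End K V, G v = (∏ l ∈ s, c l) • v ∧ (∀ l ∈ s, G (u l) = 0) ∧
      ∀ k ∉ s, G * F k = F k * G := by
  classical
  induction s using Finset.induction_on with
  | empty =>
    exact ⟨1, by simp, by simp, by simp⟩
  | insert l₀ s hl₀ ih =>
    obtain ⟨G, h1, h2, h3⟩ := ih
    refine ⟨G * F l₀, ?_, ?_, ?_⟩
    · rw [Module.End.mul_apply, hv, map_smul, h1, Finset.prod_insert hl₀, mul_smul]
    · intro l hl
      rcases Finset.mem_insert.1 hl with h | h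
      · rw [h, Module.End.mul_apply, hu, map_zero]
      · rw [h3 l₀ hl₀, Module.End.mul_apply, h2 l h, map_zero]
    · intro k hk
      have hk1 : k ≠ l₀ := fun h => hk (h ▸ Finset.mem_insert_self _ _)
      have hk2 : k ∉ s := fun h => hk (Finset.mem_insert_of_mem h)
      rw [mul_assoc, hF l₀ k hk1.symm, ← mul_assoc, h3 k hk2, mul_assoc]

theorem key (hDSL : T_DSL) (hDV : T_DV) (e n : ℕ) : ∃ B : ℕ, ∀ (L Ω I : Type) [Group L]
    [Finite L] [Fintype Ω] [DecidableEq Ω] [Fintype I] [DecidableEq I] [MulAction L I]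
    (ψ : L →* alternatingGroup Ω) (X : Subgroup L), XMin ψ X →
    (∃ x ∈ X, ∃ i : I, x • i ≠ i) → ∀ (K V : Type) [Field K] [IsAlgClosed K]
    [AddCommGroup V] [Module K V] [Module.Finite K V] (ρ : L →* Module.End K V),
    (∃ v : V, v ≠ 0) → ∀ (Z M : Subgroup L) (T : I → Subgroup L), M.Normal → Z.Normal →
    Z ≤ M → RSoc Z M T → Faith ρ M →
    (∀ x ∈ M, x ∈ Z ↔ ∃ z : K, ∀ v : V, ρ x v = z • v) →
    ∀ (q s : ℕ) (a h : L), 0 < q → q ≤ e → 0 < s → s ≤ e → a ^ q = 1 → h ^ s = 1 →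
    a * h = h * a → ∀ t : Fin n → L, (∀ l, ∃ κ μ : ℕ, t l = a ^ κ * h ^ μ) →
    (∀ l, B ≤ (ψ (t l) : Perm Ω).support.card) →
    ∃ (G : Module.End K V) (v : V), G v ≠ 0 ∧ ∀ l, G (ρ (t l) v) = 0 := by
  obtain ⟨B, hB⟩ := hDSL e n
  refine ⟨B, ?_⟩
  intro L Ω I _ _ _ _ _ _ _ ψ X hX hne K V _ _ _ _ _ ρ hV Z M T hMn hZn hZM hRS hFaith hZ
    q s a h hq hqe hs hse haq hhs hah t ht htB
  classical
  have hRS' := hRS
  obtain ⟨hI, htr, hTM, hTp, hTZ, hTs, hTc, hTm, hMs⟩ := hRS'
  obtain ⟨j, hj1, hj2⟩ := hB L Ω I ψ X hX htr hne q s a h hq hqe hs hse haq hhs hah t ht htB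
  obtain ⟨v, x, μ, ν, hv, hx⟩ := hDV L I Z M T hMn hZn hZM hRS K V ρ hV hFaith hZ n t j hj1 hj2
  have hScal : Scal ρ Z := fun z hz => (hZ z (hZM hz)).1 hz
  have hcomm := Pool.Agent.H60.NZ.DVA.pf_dva L I Z M T hRS K V ρ hV hScal
  set F : Fin n → Module.End K V := fun l => ρ (t l * x l * (t l)⁻¹) - μ l • 1 with hF
  have hmem : ∀ l, t l * x l * (t l)⁻¹ ∈ T (t l • j l) := fun l => hTm _ _ _ (hx l).1
  have hFc : ∀ l k, l ≠ k → F l * F k = F k * F l := by
    intro l k hlk
    have h1 := hcomm _ _ (hj2 l k hlk).2.1 _ (hmem l) _ (hmem k)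
    have h2 : Commute (ρ (t l * x l * (t l)⁻¹)) (ρ (t k * x k * (t k)⁻¹)) := h1
    have h3 : Commute (F l) (F k) := by
      refine Commute.sub_left (Commute.sub_right h2 ?_) (Commute.sub_right ?_ ?_)
      · exact (Commute.one_right _).smul_right _
      · exact (Commute.one_left _).smul_left _
      · exact ((Commute.one_right _).smul_right _).smul_left _
    exact h3
  have hFu : ∀ l, F l (ρ (t l) v) = 0 := by
    intro l
    have h1 : ρ (t l * x l * (t l)⁻¹) (ρ (t l) v) = ρ (t l) (ρ (x l) v) := by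
      rw [← Module.End.mul_apply, ← map_mul, ← Module.End.mul_apply, ← map_mul]
      congr 2
      group
    show ρ (t l * x l * (t l)⁻¹) (ρ (t l) v) - (μ l • (1 : Module.End K V)) (ρ (t l) v) = 0
    rw [h1, (hx l).2.1, map_smul, LinearMap.smul_apply, Module.End.one_apply, sub_self]
  have hFv : ∀ l, F l v = (ν l - μ l) • v := by
    intro l
    show ρ (t l * x l * (t l)⁻¹) v - (μ l • (1 : Module.End K V)) v = (ν l - μ l) • v
    rw [(hx l).2.2.1, LinearMap.smul_apply, Module.End.one_apply, sub_smul]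
  obtain ⟨G, h1, h2, -⟩ := prod_op F (fun l => ρ (t l) v) v (fun l => ν l - μ l) hFc hFu hFv
    Finset.univ
  refine ⟨G, v, ?_, fun l => h2 l (Finset.mem_univ l)⟩
  rw [h1]
  refine smul_ne_zero ?_ hv
  rw [Finset.prod_ne_zero_iff]
  intro l _
  exact sub_ne_zero.2 (hx l).2.2.2.symm

/-- powers of an element of prime order -/
theorem pow_ne {L : Type} [Group L] {q : ℕ} (hq : q.Prime) {a : L} (haq : a ^ q = 1)
    (ha : a ≠ 1) {k : ℕ} (h0 : 0 < k) (hk : k < q) : a ^ k ≠ 1 := by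
  intro h
  have h1 : orderOf a ∣ q := orderOf_dvd_of_pow_eq_one haq
  have h2 : orderOf a ∣ k := orderOf_dvd_of_pow_eq_one h
  rcases (Nat.dvd_prime hq).1 h1 with h3 | h3
  · exact ha (orderOf_eq_one_iff.1 h3)
  · rw [h3] at h2
    exact absurd (Nat.le_of_dvd h0 h2) (not_le.2 hk)

theorem pf_pdx : T_RS → T_XNT → T_DSL → T_DV → T_PDX := by
  intro hRS hXNT hDSL hDV e
  classical
  choose B₀ hB₀ using fun n => key hDSL hDV (e ^ 2) n
  set B : ℕ := 6 + ∑ n ∈ Finset.range (2 * e + 1), B₀ n with hB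
  have hB6 : 6 ≤ B := by omega
  have hBn : ∀ n, n ≤ 2 * e → B₀ n ≤ B := by
    intro n hn
    have h1 : n ∈ Finset.range (2 * e + 1) := Finset.mem_range.2 (Nat.lt_succ_of_le hn)
    have := Finset.single_le_sum (f := B₀) (fun i _ => Nat.zero_le _) h1
    omega
  refine ⟨B, ?_⟩
  intro L Ω _ _ _ _ ψ X hX hSch K V _ _ _ _ _ ρ hV M hMn hMk hFaith hMS hmin hMp q a hLP
  obtain ⟨hqp, hq5, hqe, haq, ha1, hasup, hqK, halt⟩ := hLP
  have hcard : 5 ≤ Fintype.card Ω := by
    have h1 := hasup 1 (by simpa using ha1)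
    have h2 : (ψ (a ^ 1) : Perm Ω).support.card ≤ Fintype.card Ω := Finset.card_le_univ _
    omega
  -- the subgroup of scalars
  let Z : Subgroup L :=
    { carrier := {x | x ∈ M ∧ ∃ z : K, ∀ v : V, ρ x v = z • v}
      one_mem' := ⟨M.one_mem, 1, fun v => by simp⟩
      mul_mem' := by
        rintro x y ⟨hx, z, hz⟩ ⟨hy, z', hz'⟩
        refine ⟨M.mul_mem hx hy, z * z', fun v => ?_⟩
        rw [map_mul, Module.End.mul_apply, hz', map_smul, hz, smul_smul, mul_comm]
      inv_mem' := by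
        rintro x ⟨hx, z, hz⟩
        refine ⟨M.inv_mem hx, z⁻¹, fun v => ?_⟩
        have h1 : ρ x (ρ x⁻¹ v) = v := by
          rw [← Module.End.mul_apply, ← map_mul, mul_inv_cancel, map_one, Module.End.one_apply]
        by_cases hz0 : z = 0
        · exfalso
          obtain ⟨w, hw⟩ := hV
          have h2 : ρ x (ρ x⁻¹ w) = w := by
            rw [← Module.End.mul_apply, ← map_mul, mul_inv_cancel, map_one, Module.End.one_apply]
          rw [hz, hz0, zero_smul] at h2
          exact hw h2.symm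
        · rw [hz] at h1
          rw [← h1, smul_smul, inv_mul_cancel₀ hz0, one_smul, h1] }
  have hZmem : ∀ x, x ∈ Z ↔ x ∈ M ∧ ∃ z : K, ∀ v : V, ρ x v = z • v := fun x => Iff.rfl
  have hZM : Z ≤ M := fun x hx => ((hZmem x).1 hx).1
  have hZn : Z.Normal := by
    refine ⟨fun x hx g => ?_⟩
    obtain ⟨h1, z, hz⟩ := (hZmem x).1 hx
    refine (hZmem _).2 ⟨hMn.conj_mem x h1 g, z, fun v => ?_⟩
    rw [map_mul, map_mul, Module.End.mul_apply, Module.End.mul_apply, hz, map_smul,
      ← Module.End.mul_apply, ← map_mul, mul_inv_cancel, map_one, Module.End.one_apply]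
  have hZlt : Z < M := by
    refine lt_of_le_of_ne hZM ?_
    intro h
    apply hMS
    intro x hx
    rw [← h] at hx
    exact ((hZmem x).1 hx).2
  have hmax : ∀ M' : Subgroup L, M'.Normal → Z ≤ M' → M' ≤ M → M' = Z ∨ M' = M := by
    intro M' h1 h2 h3
    by_cases h4 : M' = M
    · exact Or.inr h4
    · left
      have h5 := hmin M' h1 (lt_of_le_of_ne h3 h4)
      exact le_antisymm (fun x hx => (hZmem x).2 ⟨h3 hx, h5 x hx⟩) h2
  obtain ⟨I, iF, iD, iA, T, hT⟩ := hRS L M Z hMn hZn hZlt hMp hmax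
  have hZk : Z ≤ ψ.ker := fun x hx => (hMk (hZM hx)).1
  have hne := hXNT L Ω I ψ X hcard hX hSch M Z T hMk hZn hZk hT
  have hZiff : ∀ x ∈ M, x ∈ Z ↔ ∃ z : K, ∀ v : V, ρ x v = z • v := fun x hx =>
    ⟨fun h => ((hZmem x).1 h).2, fun h => (hZmem x).2 ⟨hx, h⟩⟩
  have hq0 : 0 < q := hqp.pos
  have hqe2 : q ≤ e ^ 2 := by nlinarith
  have h1e2 : 1 ≤ e ^ 2 := by nlinarith
  rcases halt with hfix | ⟨p, h, hpair, hpK, hrel⟩
  · -- no fixed vector
    obtain ⟨G, v, hG, hGt⟩ := hB₀ (q - 1) L Ω I ψ X hX hne K V ρ hV Z M T hMn hZn hZM hT hFaith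
      hZiff q 1 a 1 hq0 hqe2 one_pos h1e2 haq (one_pow 1) (by simp)
      (fun l => a ^ ((l : ℕ) + 1)) (fun l => ⟨(l : ℕ) + 1, 0, by simp⟩)
      (fun l => by
        have h2 : a ^ ((l : ℕ) + 1) ≠ 1 := pow_ne hqp haq ha1 (Nat.succ_pos _) (by
          have := l.2; omega)
        exact (hBn _ (by omega)).trans (hasup _ h2))
    have hw : G (∑ k ∈ Finset.range q, ρ (a ^ k) v) = G v := by
      have hq1 : q = (q - 1) + 1 := by omega
      rw [hq1, Finset.sum_range_succ', map_add, map_sum]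
      rw [Finset.sum_eq_zero]
      · simp
      · intro k hk
        exact hGt ⟨k, Finset.mem_range.1 hk⟩
    have hw2 : ρ a (∑ k ∈ Finset.range q, ρ (a ^ k) v) = ∑ k ∈ Finset.range q, ρ (a ^ k) v := by
      rw [map_sum]
      have h2 : ∀ k, ρ a (ρ (a ^ k) v) = ρ (a ^ (k + 1)) v := by
        intro k
        rw [← Module.End.mul_apply, ← map_mul, ← pow_succ']
      simp only [h2]
      have h3 := Finset.sum_range_succ' (fun k => ρ (a ^ k) v) q
      have h4 := Finset.sum_range_succ (fun k => ρ (a ^ k) v) q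
      rw [haq] at h4
      rw [pow_zero] at h3
      rw [h3] at h4
      exact add_right_cancel h4
    have hw3 := hfix _ hw2
    rw [hw3, map_zero] at hw
    exact hG hw.symm
  · -- second alternative
    obtain ⟨-, -, -, hpp, hpe, -, hah, hhp, -, hhz, hsup⟩ := hpair
    have hne1 : ∀ k, h * a ^ k ≠ 1 := by
      intro k hk
      apply hhz
      rw [eq_inv_of_mul_eq_one_left hk]
      exact Subgroup.inv_mem _ (Subgroup.npow_mem_zpowers _ _)
    have hhs : h ^ (p * q) = 1 := by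
      rcases hhp with h1 | ⟨h1, h2⟩
      · rw [pow_mul, h1, one_pow]
      · rw [h1, pow_mul, h2, haq]
    have hspos : 0 < p * q := Nat.mul_pos hpp.pos hq0
    have hse : p * q ≤ e ^ 2 := by
      rw [pow_two]; exact Nat.mul_le_mul hpe hqe
    have hcom : ∀ k, h * a ^ k = a ^ k * h := fun k => by
      have : Commute a h := hah
      exact ((this.pow_left k).eq).symm
    let t : Fin (2 * q - 1) → L := fun l =>
      if (l : ℕ) < q - 1 then a ^ ((l : ℕ) + 1) else h * a ^ ((l : ℕ) - (q - 1))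
    have ht1 : ∀ k (hk : k < q - 1), t ⟨k, by omega⟩ = a ^ (k + 1) := fun k hk => if_pos hk
    have ht2 : ∀ k (hk : k < q), t ⟨k + (q - 1), by omega⟩ = h * a ^ k := fun k hk => by
      show (if k + (q - 1) < q - 1 then a ^ (k + (q - 1) + 1) else h * a ^ (k + (q - 1) - (q - 1)))
        = h * a ^ k
      rw [if_neg (by omega), Nat.add_sub_cancel]
    obtain ⟨G, v, hG, hGt⟩ := hB₀ (2 * q - 1) L Ω I ψ X hX hne K V ρ hV Z M T hMn hZn hZM hT
      hFaith hZiff q (p * q) a h hq0 hqe2 hspos hse haq hhs hah t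
      (fun l => by
        by_cases hl : (l : ℕ) < q - 1
        · exact ⟨(l : ℕ) + 1, 0, by simp only [t, if_pos hl]; simp⟩
        · exact ⟨(l : ℕ) - (q - 1), 1, by
            simp only [t, if_neg hl]; rw [pow_one, hcom]⟩)
      (fun l => by
        refine (hBn _ (by omega)).trans ?_
        by_cases hl : (l : ℕ) < q - 1
        · have h2 : a ^ ((l : ℕ) + 1) ≠ 1 := pow_ne hqp haq ha1 (Nat.succ_pos _) (by omega)
          simp only [t, if_pos hl]
          exact hasup _ h2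
        · simp only [t, if_neg hl]
          rw [hcom]
          have h2 := hsup ((l : ℕ) - (q - 1)) 1 (by
            rw [pow_one, ← hcom]; exact hne1 _)
          rwa [pow_one] at h2)
    have hw : G (∑ k ∈ Finset.range q, ρ (a ^ k) v) = G v := by
      have hq1 : q = (q - 1) + 1 := by omega
      rw [hq1, Finset.sum_range_succ', map_add, map_sum]
      rw [Finset.sum_eq_zero]
      · simp
      · intro k hk
        have hk' : k < q - 1 := Finset.mem_range.1 hk
        have := hGt ⟨k, by omega⟩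
        rwa [ht1 k hk'] at this
    have hw2 := congrArg G (hrel v)
    rw [hw, map_sum, map_sum] at hw2
    rw [Finset.sum_eq_zero] at hw2
    · exact hG hw2.symm
    · intro k hk
      have hk' : k < q := Finset.mem_range.1 hk
      have := hGt ⟨k + (q - 1), by omega⟩
      rw [ht2 k hk', map_mul, Module.End.mul_apply] at this
      exact this

end Pool.Agent.H92.NZ.PDX
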